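import Mathlib
import Pool.Agent.V11217.TreeSpace

/-!
A space for which both selection games on k-covers are undetermined.
-/

namespace Pool.Agent.Results.MP_367a9a_gt.Undetermined

open Set Pool.Agent.V11217 Pool.Agent.V11217.Tree

/-- k-covers: families of open sets with union `X` such that every compact set lies in a member -/
def IsKCover {X : Type} [TopologicalSpace X] (𝒰 : Set (Set X)) : Prop :=
  (∀ U ∈ 𝒰, IsOpen U) ∧ ⋃₀ 𝒰 = univ ∧ ∀ K : Set X, IsCompact K → ∃ U ∈ 𝒰, K ⊆ U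

/-- P1 has a winning strategy in the single-selection game. -/
def P1WinsOne (X : Type) [TopologicalSpace X] : Prop :=
  ∃ τ : List (Set X) → Set (Set X), (∀ h, IsKCover (τ h)) ∧
    ∀ U : ℕ → Set X, (∀ n, U n ∈ τ ((List.range n).map U)) → ¬ IsKCover (Set.range U)

/-- P2 has a winning strategy in the single-selection game. -/
def P2WinsOne (X : Type) [TopologicalSpace X] : Prop :=
  ∃ σ : List (Set (Set X)) → Set X, ∀ 𝒰 : ℕ → Set (Set X), (∀ n, IsKCover (𝒰 n)) →
    (∀ n, σ ((List.range (n + 1)).map 𝒰) ∈ 𝒰 n) ∧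
      IsKCover (Set.range (fun n => σ ((List.range (n + 1)).map 𝒰)))

/-- P1 has a winning strategy in the finite-selection game. -/
def P1WinsFin (X : Type) [TopologicalSpace X] : Prop :=
  ∃ τ : List (Set (Set X)) → Set (Set X), (∀ h, IsKCover (τ h)) ∧
    ∀ ℱ : ℕ → Set (Set X),
      (∀ n, ℱ n ⊆ τ ((List.range n).map ℱ) ∧ (ℱ n).Finite) → ¬ IsKCover (⋃ n, ℱ n)

/-- P2 has a winning strategy in the finite-selection game. -/
def P2WinsFin (X : Type) [TopologicalSpace X] : Prop :=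
  ∃ σ : List (Set (Set X)) → Set (Set X), ∀ 𝒰 : ℕ → Set (Set X), (∀ n, IsKCover (𝒰 n)) →
    (∀ n, σ ((List.range (n + 1)).map 𝒰) ⊆ 𝒰 n ∧ (σ ((List.range (n + 1)).map 𝒰)).Finite) ∧
      IsKCover (⋃ n, σ ((List.range (n + 1)).map 𝒰))

theorem p2_one_fin {X : Type} [TopologicalSpace X] (h : P2WinsOne X) : P2WinsFin X := by
  obtain ⟨σ, hσ⟩ := h
  refine ⟨fun h => {σ h}, fun 𝒰 h𝒰 => ?_⟩
  obtain ⟨h1, h2⟩ := hσ 𝒰 h𝒰
  refine ⟨fun n => ⟨by simpa using h1 n, Set.finite_singleton _⟩, ?_⟩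
  convert h2 using 1
  ext U
  simp [eq_comm]

theorem p1_fin_one {X : Type} [TopologicalSpace X] (h : P1WinsFin X) : P1WinsOne X := by
  obtain ⟨τ, hτ, hwin⟩ := h
  refine ⟨fun h => τ (h.map (fun U => {U})), fun h => hτ _, fun U hU => ?_⟩
  have := hwin (fun n => {U n}) (fun n => by
    refine ⟨?_, Set.finite_singleton _⟩
    have h1 : U n ∈ τ (((List.range n).map U).map (fun U => {U})) := hU n
    rw [List.map_map] at h1
    exact singleton_subset_iff.2 h1)
  convert this using 2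
  ext V
  simp [eq_comm]

/-- P1 has no winning strategy on Lindelof P-spaces. -/
theorem no_p1 {X : Type} [TopologicalSpace X] [T1Space X] [Nonempty X] (hP : PSpace X)
    (hL : NLind X) : ¬ P1WinsOne X := by
  classical
  rintro ⟨τ, hτ, hwin⟩
  have h1 : ∀ h : List (Set X), ∃ c : ℕ → Set X, (∀ k, c k ∈ τ h) ∧
      ∀ F : Finset X, ∃ k, (↑F : Set X) ⊆ c k := by
    intro h
    obtain ⟨𝒱, hsub, hc, hcov⟩ := omega_lindelof hP hL (τ h) (hτ h).1
      (fun F hF => (hτ h).2.2 F hF.isCompact)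
    have hne : 𝒱.Nonempty := by
      obtain ⟨U, hU, _⟩ := hcov ∅ finite_empty
      exact ⟨U, hU⟩
    obtain ⟨c, hc'⟩ := hc.exists_eq_range hne
    refine ⟨c, fun k => hsub (by rw [hc']; exact ⟨k, rfl⟩), fun F => ?_⟩
    obtain ⟨U, hU, hFU⟩ := hcov ↑F F.finite_toSet
    rw [hc'] at hU
    obtain ⟨k, rfl⟩ := hU
    exact ⟨k, hFU⟩
  choose c hcτ hcF using h1
  let hist : List ℕ → List (Set X) := fun q => q.foldl (fun h k => h ++ [c h k]) []
  have hhist : ∀ q k, hist (q ++ [k]) = hist q ++ [c (hist q) k] := by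
    intro q k
    simp only [hist, List.foldl_append, List.foldl_cons, List.foldl_nil]
  choose f hf using fun (F : Finset X) (q : List ℕ) => hcF (hist q) F
  let V : Finset X → Set X := fun F => ⋂ q : List ℕ, c (hist q) (f F q)
  have hVo : ∀ F, IsOpen (V F) := fun F =>
    hP.iInter _ (fun q => (hτ (hist q)).1 _ (hcτ _ _))
  have hFV : ∀ F : Finset X, (↑F : Set X) ⊆ V F := fun F => subset_iInter (fun q => hf F q)
  obtain ⟨𝒱, hsub, hc, hcov⟩ := omega_lindelof hP hL (Set.range V)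
    (by rintro _ ⟨F, rfl⟩; exact hVo F)
    (fun F hF => ⟨V hF.toFinset, ⟨_, rfl⟩, by simpa using hFV hF.toFinset⟩)
  have hne : 𝒱.Nonempty := by
    obtain ⟨U, hU, _⟩ := hcov ∅ finite_empty
    exact ⟨U, hU⟩
  obtain ⟨v, hv⟩ := hc.exists_eq_range hne
  have h2 : ∀ j, ∃ F, V F = v j := fun j => hsub (by rw [hv]; exact ⟨j, rfl⟩)
  choose Fj hFj using h2
  let q : ℕ → List ℕ := fun n => Nat.rec [] (fun n q => q ++ [f (Fj n) q]) n
  have hq : ∀ n, q (n + 1) = q n ++ [f (Fj n) (q n)] := fun n => rfl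
  let U : ℕ → Set X := fun n => c (hist (q n)) (f (Fj n) (q n))
  have hU : ∀ n, (List.range n).map U = hist (q n) := by
    intro n
    induction n with
    | zero => rfl
    | succ n ih =>
      rw [List.range_succ, List.map_append, ih, hq, hhist]
      rfl
  apply hwin U (fun n => by rw [hU]; exact hcτ _ _)
  have hVU : ∀ j, V (Fj j) ⊆ U j := fun j => iInter_subset _ (q j)
  have hcompact : ∀ K : Set X, IsCompact K → ∃ W ∈ Set.range U, K ⊆ W := by
    intro K hK
    obtain ⟨W, hW, hKW⟩ := hcov K (compact_finite hP hK)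
    rw [hv] at hW
    obtain ⟨j, rfl⟩ := hW
    exact ⟨U j, ⟨j, rfl⟩, hKW.trans ((hFj j).symm.subset.trans (hVU j))⟩
  refine ⟨?_, ?_, hcompact⟩
  · rintro _ ⟨n, rfl⟩
    exact (hτ (hist (q n))).1 _ (hcτ _ _)
  · rw [eq_univ_iff_forall]
    intro x
    obtain ⟨W, hW, hxW⟩ := hcompact {x} isCompact_singleton
    exact ⟨W, hW, hxW rfl⟩

section P2

variable {W : Type} [LinearOrder W] (ell : W → ℕ → W)

open Pt

/-- the sets played by P1 -/
def VV (α : W) (A : Finset (List W)) (B : Finset W) : Set (Pt W) :=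
  {y | (∃ s ∈ A, y ∈ N ell s α) ∨ ∃ γ ∈ B, y = lim γ}

/-- the covers played by P1 -/
def CC (α : W) : Set (Set (Pt W)) :=
  {V | ∃ (A : Finset (List W)) (B : Finset W), (∀ s ∈ A, ∀ x ∈ s, x < α) ∧ (∀ γ ∈ B, γ ≤ α) ∧
    V = VV ell α A B}

variable (hb : ∀ S : Set W, S.Countable → ∃ w, ∀ s ∈ S, s < w)

theorem VV_open (α : W) (A : Finset (List W)) (B : Finset W) :
    @IsOpen _ (topo ell hb) (VV ell α A B) := by
  rw [open_iff]
  intro t ht
  rcases ht with ⟨s, hs, hts⟩ | ⟨γ, hγ, hγt⟩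
  · obtain ⟨a, ha⟩ := (open_iff ell hb _).1 (N_open ell hb s α) t hts
    exact ⟨a, fun y hy => Or.inl ⟨s, hs, ha y hy⟩⟩
  · exact absurd hγt (by simp)

/-- every point lies in a basic set of the cover -/
theorem exists_node (hell : ∀ γ α, (∀ n, ell γ n < α) → γ ≤ α) (α : W) (y : Pt W) :
    (∃ s : List W, (∀ x ∈ s, x < α) ∧ y ∈ N ell s α) ∨ ∃ γ ≤ α, y = lim γ := by
  classical
  by_cases h : ∃ n, ∃ β, val ell y n = some β ∧ α ≤ β
  · have hn := Nat.find_spec h
    have hmin := fun m => Nat.find_min h (m := m)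
    set n := Nat.find h with hndef
    obtain ⟨β, hβ, hδβ⟩ := hn
    obtain ⟨s, hsl, hs1, hs2⟩ := exists_initial ell y n hβ
    have hs3 : ∀ x ∈ s, x < α := by
      intro x hx
      obtain ⟨i, hi, hix⟩ := hs2 x hx
      by_contra hcon
      exact hmin i hi ⟨x, hix, not_lt.1 hcon⟩
    rw [← hsl] at hs1 hβ
    exact Or.inl ⟨s, hs3, Or.inr ⟨hs1, β, hδβ, hβ⟩⟩
  · push Not at h
    cases y with
    | fin t =>
      left
      refine ⟨t, fun x hx => ?_, Or.inl rfl⟩
      obtain ⟨i, hi, hix⟩ := List.mem_iff_getElem.1 hx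
      exact h i x (by
        change t[i]? = some x
        rw [← hix]; exact List.getElem?_eq_getElem _)
    | lim γ =>
      right
      exact ⟨γ, hell γ α (fun n => h n _ rfl), rfl⟩

theorem CC_cover (hell : ∀ γ α, (∀ n, ell γ n < α) → γ ≤ α) (α : W) (F : Finset (Pt W)) :
    ∃ V ∈ CC ell α, (↑F : Set (Pt W)) ⊆ V := by
  classical
  induction F using Finset.induction_on with
  | empty => exact ⟨_, ⟨∅, ∅, by simp, by simp, rfl⟩, by simp⟩
  | insert y F _ ih =>
    obtain ⟨_, ⟨A, B, hA, hB, rfl⟩, hF⟩ := ih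
    rcases exists_node ell hell α y with ⟨s, hs, hy⟩ | ⟨γ, hγ, hy⟩
    · refine ⟨_, ⟨insert s A, B, ?_, hB, rfl⟩, ?_⟩
      · intro t ht
        rcases Finset.mem_insert.1 ht with rfl | ht
        · exact hs
        · exact hA t ht
      · intro z hz
        rw [Finset.coe_insert] at hz
        rcases hz with rfl | hz
        · exact Or.inl ⟨s, Finset.mem_insert_self _ _, hy⟩
        · rcases hF hz with ⟨t, ht, hzt⟩ | h
          · exact Or.inl ⟨t, Finset.mem_insert_of_mem ht, hzt⟩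
          · exact Or.inr h
    · refine ⟨_, ⟨A, insert γ B, hA, ?_, rfl⟩, ?_⟩
      · intro t ht
        rcases Finset.mem_insert.1 ht with rfl | ht
        · exact hγ
        · exact hB t ht
      · intro z hz
        rw [Finset.coe_insert] at hz
        rcases hz with rfl | hz
        · exact Or.inr ⟨γ, Finset.mem_insert_self _ _, hy⟩
        · rcases hF hz with h | ⟨t, ht, hzt⟩
          · exact Or.inl h
          · exact Or.inr ⟨t, Finset.mem_insert_of_mem ht, hzt⟩

theorem CC_finite (α : W) (R : Set (Set (Pt W))) (hR : R.Finite) (hsub : R ⊆ CC ell α) :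
    ∃ (A : Finset (List W)) (B : Finset W), (∀ s ∈ A, ∀ x ∈ s, x < α) ∧ (∀ γ ∈ B, γ ≤ α) ∧
      ⋃₀ R ⊆ VV ell α A B := by
  classical
  induction R, hR using Set.Finite.induction_on with
  | empty => exact ⟨∅, ∅, by simp, by simp, by simp⟩
  | @insert V R _ _ ih =>
    obtain ⟨A, B, hA, hB, hAB⟩ := ih ((subset_insert _ _).trans hsub)
    obtain ⟨A', B', hA', hB', rfl⟩ := hsub (mem_insert _ _)
    refine ⟨A ∪ A', B ∪ B', ?_, ?_, ?_⟩
    · intro s hs
      rcases Finset.mem_union.1 hs with h | h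
      · exact hA s h
      · exact hA' s h
    · intro s hs
      rcases Finset.mem_union.1 hs with h | h
      · exact hB s h
      · exact hB' s h
    · rw [sUnion_insert]
      rintro y (hy | hy)
      · rcases hy with ⟨s, hs, hys⟩ | ⟨s, hs, hys⟩
        · exact Or.inl ⟨s, Finset.mem_union_right _ hs, hys⟩
        · exact Or.inr ⟨s, Finset.mem_union_right _ hs, hys⟩
      · rcases hAB hy with ⟨s, hs, hys⟩ | ⟨s, hs, hys⟩
        · exact Or.inl ⟨s, Finset.mem_union_left _ hs, hys⟩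
        · exact Or.inr ⟨s, Finset.mem_union_left _ hs, hys⟩

theorem no_p2 [WellFoundedLT W] (hc : ∀ w : W, (Set.Iio w).Countable)
    (hell : ∀ γ α, (∀ n, ell γ n < α) → γ ≤ α)
    (hell2 : ∀ γ, (Set.Iio γ).Nonempty → ∀ n, ell γ n < γ)
    (hfin : ∀ K : Set (Pt W), @IsCompact _ (topo ell hb) K → K.Finite) :
    ¬ @P2WinsFin (Pt W) (topo ell hb) := by
  classical
  rintro ⟨σ, hσ⟩
  have hcov : ∀ α, @IsKCover _ (topo ell hb) (CC ell α) := by
    intro α
    refine ⟨?_, ?_, ?_⟩
    · rintro _ ⟨A, B, -, -, rfl⟩; exact VV_open ell hb α A B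
    · rw [eq_univ_iff_forall]
      intro y
      obtain ⟨V, hV, hyV⟩ := CC_cover ell hell α {y}
      exact ⟨V, hV, hyV (by simp)⟩
    · intro K hK
      obtain ⟨V, hV, hyV⟩ := CC_cover ell hell α (hfin K hK).toFinset
      exact ⟨V, hV, by simpa using hyV⟩
  -- the answers
  let R : List W → W → Set (Set (Pt W)) := fun p α => σ ((p ++ [α]).map (CC ell))
  have hR : ∀ p α, R p α ⊆ CC ell α ∧ (R p α).Finite := by
    intro p α
    have h1 := (hσ (fun n => CC ell ((p ++ [α]).getD n α)) (fun n => hcov _)).1 p.length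
    have h2 : (List.range (p.length + 1)).map (fun n => CC ell ((p ++ [α]).getD n α)) =
        (p ++ [α]).map (CC ell) := by
      apply List.ext_getElem
      · simp
      · intro i h3 h4
        simp only [List.length_map, List.length_append, List.length_singleton] at h4
        simp only [List.getElem_map, List.getElem_range]
        rw [List.getD_eq_getElem _ _ (by simpa using h4)]
    rw [h2] at h1
    have h3 : (p ++ [α]).getD p.length α = α := by simp
    rw [h3] at h1
    exact h1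
  choose A B hA hB hAB using fun p α => CC_finite ell α (R p α) (hR p α).2 (hR p α).1
  obtain ⟨w0, _⟩ := hb ∅ countable_empty
  let Z : List W → Finset (List W) → Finset W → Set W :=
    fun p A0 B0 => {α | A p α = A0 ∧ (B p α).erase α = B0}
  have hbd : ∀ p A0 B0, ∃ w, (∃ w, ∀ α ∈ Z p A0 B0, α < w) → ∀ α ∈ Z p A0 B0, α < w := by
    intro p A0 B0
    by_cases h : ∃ w, ∀ α ∈ Z p A0 B0, α < w
    · obtain ⟨w, hw⟩ := h
      exact ⟨w, fun _ => hw⟩
    · exact ⟨w0, fun h' => absurd h' h⟩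
  choose bd hbd using hbd
  have hnx : ∀ p A0 B0 (β : W), ∃ α, (∃ α ∈ Z p A0 B0, β < α) → α ∈ Z p A0 B0 ∧ β < α := by
    intro p A0 B0 β
    by_cases h : ∃ α ∈ Z p A0 B0, β < α
    · obtain ⟨α, hα⟩ := h
      exact ⟨α, fun _ => hα⟩
    · exact ⟨w0, fun h' => absurd h' h⟩
  choose nx hnx using hnx
  let Ls : Finset W → Set (List W) := fun S => {s | ∀ x ∈ s, x ∈ (↑S : Set W)}
  have hLs : ∀ S, (Ls S).Countable := fun S => lists_countable S.countable_toSet
  let Idx : Finset W → Set (List W × (Finset (List W) × (Finset W × W))) := fun S =>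
    Ls S ×ˢ ({A0 : Finset (List W) | (↑A0 : Set (List W)) ⊆ Ls S} ×ˢ
      ({B0 : Finset W | (↑B0 : Set W) ⊆ ↑S} ×ˢ (↑S : Set W)))
  have hIdx : ∀ S, (Idx S).Countable := fun S =>
    (hLs S).prod ((countable_finsets_subset (hLs S)).prod
      ((countable_finsets_subset S.countable_toSet).prod S.countable_toSet))
  obtain ⟨δ, hw0δ, hδ, -⟩ := exists_closed_bound hc hb
    (fun S => (fun x : List W × (Finset (List W) × (Finset W × W)) => bd x.1 x.2.1 x.2.2.1) ''
      Idx S ∪ (fun x : List W × (Finset (List W) × (Finset W × W)) =>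
        nx x.1 x.2.1 x.2.2.1 x.2.2.2) '' Idx S)
    (fun S => ((hIdx S).image _).union ((hIdx S).image _)) w0
  have hδne : (Set.Iio δ).Nonempty := ⟨w0, hw0δ⟩
  have hcl : ∀ (p : List W) (A0 : Finset (List W)) (B0 : Finset W) (β : W),
      (∀ x ∈ p, x < δ) → (∀ s ∈ A0, ∀ x ∈ s, x < δ) → (∀ x ∈ B0, x < δ) → β < δ →
      bd p A0 B0 < δ ∧ nx p A0 B0 β < δ := by
    intro p A0 B0 β hp hA0 hB0 hβ
    let S : Finset W := (p.toFinset ∪ A0.biUnion List.toFinset) ∪ (insert β B0)
    have hS : ∀ x ∈ S, x < δ := by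
      intro x hx
      simp only [S, Finset.mem_union, List.mem_toFinset, Finset.mem_biUnion,
        Finset.mem_insert] at hx
      rcases hx with (hx | ⟨s, hs, hxs⟩) | rfl | hx
      · exact hp x hx
      · exact hA0 s hs x hxs
      · exact hβ
      · exact hB0 x hx
    have hmem : (p, (A0, (B0, β))) ∈ Idx S := by
      refine ⟨?_, ?_, ?_, ?_⟩
      · intro x hx
        simp only [S, Finset.coe_union, mem_union, Finset.mem_coe, List.mem_toFinset]
        exact Or.inl (Or.inl hx)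
      · intro s hs x hx
        simp only [S, Finset.coe_union, mem_union, Finset.mem_coe, Finset.mem_biUnion,
          List.mem_toFinset]
        exact Or.inl (Or.inr ⟨s, hs, hx⟩)
      · intro x hx
        simp only [S, Finset.coe_union, mem_union, Finset.mem_coe, Finset.mem_insert]
        exact Or.inr (Or.inr hx)
      · simp only [S, Finset.coe_union, mem_union, Finset.mem_coe, Finset.mem_insert]
        exact Or.inr (Or.inl trivial)
    exact ⟨hδ S hS _ (Or.inl ⟨_, hmem, rfl⟩), hδ S hS _ (Or.inr ⟨_, hmem, rfl⟩)⟩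
  -- the reflection property
  have hrefl : ∀ (p : List W), (∀ x ∈ p, x < δ) → ∀ β < δ, ∃ α, β < α ∧ α < δ ∧
      A p α = A p δ ∧ (B p α).erase α = (B p δ).erase δ := by
    intro p hp β hβ
    have hA0 : ∀ s ∈ A p δ, ∀ x ∈ s, x < δ := hA p δ
    have hB0 : ∀ x ∈ (B p δ).erase δ, x < δ := by
      intro x hx
      rw [Finset.mem_erase] at hx
      exact lt_of_le_of_ne (hB p δ x hx.2) hx.1
    have hZ : δ ∈ Z p (A p δ) ((B p δ).erase δ) := ⟨rfl, rfl⟩
    obtain ⟨h1, h2⟩ := hcl p (A p δ) ((B p δ).erase δ) β hp hA0 hB0 hβ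
    have hunb : ∃ α ∈ Z p (A p δ) ((B p δ).erase δ), β < α := by
      by_contra hcon
      push Not at hcon
      have hbdd : ∃ w, ∀ α ∈ Z p (A p δ) ((B p δ).erase δ), α < w := by
        obtain ⟨w, hw⟩ := hb {β} (countable_singleton β)
        exact ⟨w, fun α hα => lt_of_le_of_lt (hcon α hα) (hw β rfl)⟩
      have := hbd _ _ _ hbdd δ hZ
      exact lt_asymm this h1
    obtain ⟨h3, h4⟩ := hnx _ _ _ β hunb
    exact ⟨_, h4, h2, h3.1, h3.2⟩
  -- P1's moves
  have hmove : ∀ p : List W, ∃ α, (∀ x ∈ p, x < δ) → α < δ ∧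
      (lim δ : Pt W) ∉ ⋃₀ R p α := by
    intro p
    by_cases hp : ∀ x ∈ p, x < δ
    · obtain ⟨β, hβ, hβs⟩ : ∃ β < δ, ∀ s ∈ A p δ, ell δ s.length ≤ β := by
        let S : Finset W := insert w0 ((A p δ).image (fun s => ell δ s.length))
        have hSne : S.Nonempty := Finset.insert_nonempty _ _
        refine ⟨S.max' hSne, ?_, fun s hs => ?_⟩
        · have := S.max'_mem hSne
          simp only [S, Finset.mem_insert, Finset.mem_image] at this
          rcases this with h | ⟨s, _, h⟩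
          · rw [h]; exact hw0δ
          · rw [← h]; exact hell2 δ hδne _
        · apply Finset.le_max'
          exact Finset.mem_insert_of_mem (Finset.mem_image_of_mem _ hs)
      obtain ⟨α, h1, h2, h3, h4⟩ := hrefl p hp β hβ
      refine ⟨α, fun _ => ⟨h2, fun hmem => ?_⟩⟩
      rcases hAB p α hmem with ⟨s, hs, hN⟩ | ⟨γ, hγ, hγδ⟩
      · rw [h3] at hs
        rcases hN with hN | ⟨-, β', h5, h6⟩
        · exact absurd hN (by simp)
        · have h7 : ell δ s.length = β' := by simpa [val] using h6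
          have := hβs s hs
          rw [h7] at this
          exact absurd (lt_of_le_of_lt this h1) (not_lt.2 h5)
      · have : γ = δ := by simpa using hγδ.symm
        subst this
        exact absurd h2 (not_lt.2 (hB p α γ hγ))
    · exact ⟨w0, fun h => absurd h hp⟩
  choose mv hmv using hmove
  let p : ℕ → List W := fun n => Nat.rec [] (fun _ p => p ++ [mv p]) n
  have hp : ∀ n, p (n + 1) = p n ++ [mv (p n)] := fun n => rfl
  have hpδ : ∀ n, ∀ x ∈ p n, x < δ := by
    intro n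
    induction n with
    | zero => intro x hx; exact absurd hx (by simp [p])
    | succ n ih =>
      intro x hx
      rw [hp, List.mem_append] at hx
      rcases hx with hx | hx
      · exact ih x hx
      · rw [List.mem_singleton] at hx
        rw [hx]; exact (hmv (p n) ih).1
  have hpr : ∀ n, (List.range n).map (fun n => mv (p n)) = p n := by
    intro n
    induction n with
    | zero => rfl
    | succ n ih => rw [List.range_succ, List.map_append, ih, hp]; rfl
  obtain ⟨-, hwin⟩ := hσ (fun n => CC ell (mv (p n))) (fun n => hcov _)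
  have h1 : (lim δ : Pt W) ∈ ⋃₀ (⋃ n, σ ((List.range (n + 1)).map (fun n => CC ell (mv (p n))))) := by
    rw [hwin.2.1]; trivial
  obtain ⟨V, hV, hδV⟩ := h1
  obtain ⟨n, hn⟩ := mem_iUnion.1 hV
  have h2 : (List.range (n + 1)).map (fun n => CC ell (mv (p n))) =
      (p n ++ [mv (p n)]).map (CC ell) := by
    rw [← hp, ← hpr (n + 1), List.map_map]
    rfl
  rw [h2] at hn
  exact (hmv (p n) (hpδ n)).2 ⟨V, hn, hδV⟩

end P2

theorem result : ∃ (X : Type) (_ : TopologicalSpace X), T2Space X ∧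
    (∃ B : Set (Set X), TopologicalSpace.IsTopologicalBasis B ∧ ∀ U ∈ B, IsClopen U) ∧
    (¬ P1WinsOne X ∧ ¬ P2WinsOne X) ∧ (¬ P1WinsFin X ∧ ¬ P2WinsFin X) := by
  obtain ⟨W, _, hwf, hc, hb⟩ := Pool.Agent.V11217.exists_omega1
  obtain ⟨ell, hell, hell2⟩ := exists_ell hc
  let T : TopologicalSpace (Pt W) := topo ell hb
  have hT2 : T2Space (Pt W) := t2 ell hb
  have hP : PSpace (Pt W) := pspace ell hb
  have hL : NLind (Pt W) := nlind ell hb hc hell
  have hne : Nonempty (Pt W) := ⟨Pt.fin []⟩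
  have h1 : ¬ P1WinsOne (Pt W) := no_p1 hP hL
  have h2 : ¬ P2WinsFin (Pt W) := no_p2 ell hb hc hell hell2 (fun K hK => compact_finite hP hK)
  exact ⟨Pt W, T, hT2, clopen_basis ell hb, ⟨h1, fun h => h2 (p2_one_fin h)⟩,
    fun h => h1 (p1_fin_one h), h2⟩

end Pool.Agent.Results.MP_367a9a_gt.Undetermined
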